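import Pool.Agent.Q35.DP.Plan

/-!
JOB BOUND of the project DP: the upper bound for odd primes.
-/

set_option autoImplicit false
set_option linter.unusedSectionVars false

namespace Pool.Agent.Q35.DP

open MvPolynomial FF Pool.Agent.W603.LV Pool.Agent.TH145.GH Pool.Agent.Y166.DP

section
variable {K : Type} [Field K]

theorem wr_exp (D₁ D₂ : K → K) (g : Fin 3 → K) :
    wr D₁ D₂ g = g 0 * D₁ (g 1) * D₂ (g 2) - g 0 * D₁ (g 2) * D₂ (g 1) -
      g 1 * D₁ (g 0) * D₂ (g 2) + g 1 * D₁ (g 2) * D₂ (g 0) +
      g 2 * D₁ (g 0) * D₂ (g 1) - g 2 * D₁ (g 1) * D₂ (g 0) := by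
  unfold Pool.Agent.Y166.DP.wr
  rw [Matrix.det_fin_three]
  simp [Matrix.of_apply, Matrix.cons_val_zero, Matrix.cons_val_one]

end

/-- The order of `x` is even at all places. -/
theorem even_ord_x {k K : Type} [Field k] [Field K] [Algebra k K] [CharZero k] [IsAlgClosed k]
    [IsFF k K] {lam : k} {x y : K} (hE : Ell k K lam x y) (hInf : StmInf) (P : Place k K) :
    Even (P.ord x) := by
  obtain ⟨o, ho1, ho2, ho3⟩ := hInf k K lam x y hE
  by_cases hP : P = o
  · rw [hP, ho1]
    exact ⟨-1, rfl⟩
  · have h1 := (ho3 P hP).1.resolve_left (Ell.x0 hE)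
    rcases h1.lt_or_eq with h2 | h2
    · have hx1 : x - 1 ≠ 0 := by
        have := Ell.x_ne hE 1
        rwa [map_one] at this
      have hxl := Ell.x_ne hE lam
      have e1 : P.ord (x - 1) = 0 := by
        have := P.ord_add_eq (f := -1) (g := x) (by simp) (Ell.x0 hE) (by rw [P.ord_neg_one]; exact h2)
        rw [P.ord_neg_one, neg_add_eq_sub] at this
        exact this.2
      have hl : algebraMap k K lam ≠ 0 := by
        intro h0
        exact hE.lam0 ((map_eq_zero _).1 h0)
      have e2 : P.ord (x - algebraMap k K lam) = 0 := by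
        have h3 : P.ord (-algebraMap k K lam) = 0 := by
          rw [P.ord_neg, P.ord_const hE.lam0]
        have := P.ord_add_eq (f := -algebraMap k K lam) (g := x) (neg_ne_zero.2 hl) (Ell.x0 hE)
          (by rw [h3]; exact h2)
        rw [h3, neg_add_eq_sub] at this
        exact this.2
      have e3 := congrArg P.ord hE.eqn
      rw [P.ord_pow, P.ord_mul (mul_ne_zero (Ell.x0 hE) hx1) hxl, P.ord_mul (Ell.x0 hE) hx1, e1,
        e2] at e3
      refine ⟨P.ord y, ?_⟩
      push_cast at e3
      omega
    · rw [← h2]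
      exact Even.zero

/-- A derivation that kills the constants is a multiple of `δ`. -/
theorem mult_of_kill {k K : Type} [Field k] [Field K] [Algebra k K] [CharZero k] [IsFF k K]
    (hExt : StmExt) {x : K} (hx : Transcendental k x) (δ : Derivation k K K) (hδ : δ x ≠ 0)
    (E : Derivation ℤ K K) (hE : ∀ c : k, E (algebraMap k K c) = 0) (f : K) :
    E f = E x / δ x * δ f := by
  have h1 := (hExt k K x hx).2 E ((E x / δ x) • δ.restrictScalars ℤ) (fun c => by
    rw [hE]
    simp [Derivation.smul_apply]) (by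
    rw [Derivation.smul_apply, smul_eq_mul]
    change E x = E x / δ x * δ x
    field_simp)
  calc E f = ((E x / δ x) • δ.restrictScalars ℤ) f := by rw [← h1]
    _ = _ := by rw [Derivation.smul_apply, smul_eq_mul]; rfl

theorem bound (hInf : StmInf) (hDel : StmDel) (hBasis : StmBasis) (hRR : StmRR) (hExt : StmExt)
    (hLoc : StmLoc) (hKer : StmKer) (hPrime : StmPrime) (hLine : StmLine) (hSM : S_SM) :
    S_BOUND := by
  classical
  intro k K _ _ _ _ _ _ lam x y hE d hd hodd c hc 𝒟 hfin hinj
  obtain ⟨hg, heq, hht⟩ := hc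
  obtain ⟨o, ho1, ho2, ho3⟩ := hInf k K lam x y hE
  obtain ⟨δ, hδx, hδy, hδ0, hδv⟩ := hDel k K lam x y hE
  have hox : o.ord x < 0 := by omega
  haveI : CharZero K := charZero_of_injective_algebraMap (algebraMap k K).injective
  have hd0 : 0 < ht k (gv x y c) := by
    rw [hht]; exact_mod_cast hd.pos
  set g : Fin 3 → K := gv x y c with hgd
  have hQ : quart g ≠ 0 := hSM k K lam x y hE g hd0
  have hx0 := Ell.x0 hE
  have hxh : xh x y c ≠ 0 := by
    intro h0
    rw [h0, zero_pow (by norm_num)] at heq
    exact mul_ne_zero hx0 hQ heq.symm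
  -- the lifts
  have hlift : ∀ D : Derivation ℤ k k, ∃ D' : Derivation ℤ K K, Lifts D D' ∧ D' x = 0 :=
    (hExt k K x hE.tr).1
  choose L hL hLx using hlift
  have hLy : ∀ D : Derivation ℤ k k, D lam = 0 → L D y = 0 := fun D h0 =>
    lift_y hE (hL D) h0 (hLx D)
  -- (a)
  have hinj' : ∀ D ∈ 𝒟, D lam = 0 → (∀ p, D (c (Sum.inl p)) = 0) → D = 0 := by
    intro D hD h0 h1
    refine hinj D hD h0 ?_
    have hg0 : ∀ i, L D (g i) = 0 := by
      intro i
      have : g i = fsum x y fun j => c (Sum.inl (i, j)) := rfl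
      rw [this, lift_fsum (hL D) (hLx D) (hLy D h0)]
      unfold fsum
      refine Finset.sum_eq_zero fun j _ => ?_
      change algebraMap k K (D (c (Sum.inl (i, j)))) * fn x y j = 0
      rw [h1, map_zero, zero_mul]
    have h2 : L D (x * quart g) = 0 := by
      unfold quart
      rw [(L D).leibniz, map_add, map_add, (L D).leibniz_pow, (L D).leibniz_pow,
        (L D).leibniz_pow, hg0, hg0, hg0, hLx]
      simp
    rw [← heq, (L D).leibniz_pow] at h2
    have h3 : L D (xh x y c) = 0 := by
      have h4 : (2 : K) * xh x y c ≠ 0 := mul_ne_zero two_ne_zero hxh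
      have h5 : (2 : K) * xh x y c * L D (xh x y c) = 0 := by
        rw [← h2]
        simp [mul_assoc]
      exact (mul_eq_zero.1 h5).resolve_left h4
    have h4 : xh x y c = fsum x y fun j => c (Sum.inr j) := rfl
    rw [h4, lift_fsum (hL D) (hLx D) (hLy D h0)] at h3
    have h5 := (hBasis k K lam x y hE o hox).2.1 _ _ h3
    intro p
    rcases p with p | p
    · exact h1 p
    · exact congrFun h5 p
  -- (b)
  have hgen : ∀ i₀, g i₀ ≠ 0 → IntermediateField.adjoin k (Set.range fun i => g i / g i₀) = ⊤ := by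
    rcases hPrime k K g d hd hht with ⟨a, ha, ha'⟩ | h
    · refine absurd (hLine k K lam x y hE g (xh x y c) heq ?_ a ha ha') id
      rw [hht]
      exact_mod_cast hodd
    · exact h
  -- (c)
  have heven : ∀ P : Place k K, Even (P.ord (quart g)) := by
    intro P
    have h1 := congrArg P.ord heq
    rw [P.ord_pow, P.ord_mul hx0 hQ] at h1
    obtain ⟨a, ha⟩ := even_ord_x hE hInf P
    refine ⟨P.ord (xh x y c) - a, ?_⟩
    push_cast at h1
    omega
  -- linearity of the lift
  have huniq : ∀ D₁ D₂ : Derivation ℤ K K, (∀ c : k, D₁ (algebraMap k K c) = D₂ (algebraMap k K c)) →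
      D₁ x = D₂ x → D₁ = D₂ := (hExt k K x hE.tr).2
  have hLadd : ∀ D E : Derivation ℤ k k, L (D + E) = L D + L E := by
    intro D E
    refine huniq _ _ (fun c => ?_) ?_
    · rw [hL, Derivation.add_apply, Derivation.add_apply, hL, hL, map_add]
    · rw [hLx, Derivation.add_apply, hLx, hLx, add_zero]
  have hLsmul : ∀ (a : k) (D : Derivation ℤ k k), L (a • D) = algebraMap k K a • L D := by
    intro a D
    refine huniq _ _ (fun c => ?_) ?_
    · rw [hL, Derivation.smul_apply, Derivation.smul_apply, hL, smul_eq_mul, smul_eq_mul, map_mul]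
    · rw [hLx, Derivation.smul_apply, hLx, smul_zero]
  -- (d)
  let Φ : 𝒟 →ₗ[k] K :=
    { toFun := fun D => wr δ (L D.1) g
      map_add' := fun D E => by
        change wr δ (L (D.1 + E.1)) g = _
        rw [hLadd]
        simp only [wr_exp, Derivation.add_apply]
        ring
      map_smul' := fun a D => by
        change wr δ (L (a • D.1)) g = a • wr δ (L D.1) g
        rw [hLsmul, Algebra.smul_def]
        simp only [wr_exp, Derivation.smul_apply, smul_eq_mul]
        ring }
  have hΦ : ∀ D : 𝒟, Φ D = wr δ (L D.1) g := fun D => rfl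
  -- the divisor
  have hsuppE : {P : Place k K | -(mo P g + P.ord (quart g) / 2) ≠ 0}.Finite := by
    refine ((mo_supp (k := k) g).union (finite_support (k := k) (quart g))).subset fun P hP => ?_
    by_contra hcon
    apply hP
    rw [Set.mem_union, not_or] at hcon
    have h1 : mo P g = 0 := not_not.1 hcon.1
    have h2 : P.ord (quart g) = 0 := not_not.1 hcon.2
    rw [h1, h2]
    rfl
  let E : Place k K →₀ ℤ := Finsupp.ofSupportFinite
    (fun P => -(mo P g + P.ord (quart g) / 2)) hsuppE
  have hEapp : ∀ P, E P = -(mo P g + P.ord (quart g) / 2) := fun P => rfl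
  have hdeg : ddeg E = d := by
    set T : Finset (Place k K) := (mo_supp (k := k) g).toFinset ∪
      (finite_support (k := k) (quart g)).toFinset with hT
    have hT1 : ∀ P, mo P g ≠ 0 → P ∈ T := by intro P hP; simp [hT, hP]
    have hT2 : ∀ P : Place k K, P.ord (quart g) ≠ 0 → P ∈ T := by intro P hP; simp [hT, hP]
    have h1 : ddeg E = ∑ P ∈ T, E P := by
      unfold ddeg
      rw [Finsupp.sum_of_support_subset (s := T)]
      · refine Finset.sum_congr rfl fun P _ => ?_
        rw [deg_one]; simp
      · intro P hP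
        rw [Finsupp.mem_support_iff, hEapp] at hP
        by_contra hcon
        apply hP
        have h2 : mo P g = 0 := by
          by_contra h; exact hcon (hT1 P h)
        have h3 : P.ord (quart g) = 0 := by
          by_contra h; exact hcon (hT2 P h)
        rw [h2, h3]
        rfl
      · intro P _; simp
    have h2 := ht_finset g T hT1
    have h3 := sum_ord_finset (quart g) T hT2
    have h4 : 2 * ∑ P ∈ T, P.ord (quart g) / 2 = 0 := by
      rw [Finset.mul_sum, ← h3]
      refine Finset.sum_congr rfl fun P _ => ?_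
      exact Int.two_mul_ediv_two_of_even (heven P)
    rw [h1]
    have h5 : ∑ P ∈ T, E P = -∑ P ∈ T, mo P g - ∑ P ∈ T, P.ord (quart g) / 2 := by
      rw [← Finset.sum_neg_distrib, ← Finset.sum_sub_distrib]
      refine Finset.sum_congr rfl fun P _ => ?_
      rw [hEapp]; ring
    rw [h5, ← h2, hht]
    omega
  have hell : ell E = d := by
    have h1 := hRR k K lam x y hE E (by rw [hdeg]; exact_mod_cast hd.one_lt.le)
    rw [h1, hdeg]
  have hfr : Module.finrank k (LL E) = d := by
    have : (Module.finrank k (LL E) : ℤ) = d := hell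
    exact_mod_cast this
  have hfd : FiniteDimensional k (LL E) := by
    apply Module.finite_of_finrank_pos
    rw [hfr]
    exact hd.pos
  have hSem : ∀ D : Derivation ℤ k k, Sem k (L D) := fun D c => ⟨D c, hL D c⟩
  have hrange : LinearMap.range Φ ≤ LL E := by
    rintro _ ⟨D, rfl⟩
    rw [hΦ]
    refine (or_iff_not_imp_left).2 fun hne P => ?_
    have h1 := (hLoc k K P δ hδ0 (hδv P) (L D.1) (hSem D.1) g hg hQ (heven P)).resolve_left hne
    rw [hEapp]
    obtain ⟨a, ha⟩ := heven P
    omega
  -- (e)
  have hwrall : ∀ D ∈ 𝒟, wr δ (L D) g = 0 → ∀ D' : Derivation ℤ K K, Lifts D D' →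
      wr δ D' g = 0 := by
    intro D hD h0 D' hD'
    have hδ0' : δ x ≠ 0 := by
      rw [hδx]
      exact mul_ne_zero two_ne_zero (Ell.y0 hE)
    have h1 := mult_of_kill hExt hE.tr δ hδ0' (D' - L D) (fun c => by
      rw [Derivation.sub_apply, hD', hL, sub_self])
    have h2 : ∀ f, D' f = L D f + (D' - L D) x / δ x * δ f := by
      intro f
      rw [← h1 f, Derivation.sub_apply]
      ring
    rw [wr_exp] at h0 ⊢
    rw [h2 (g 0), h2 (g 1), h2 (g 2)]
    linear_combination h0
  have hker := hKer k K lam x y hE d (fun p => c (Sum.inl p)) hd.one_lt.le hht hgen δ hδx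
    ((LinearMap.ker Φ).map 𝒟.subtype) (by
      rintro _ ⟨D, hD, rfl⟩ h1 h2
      exact hinj' D.1 D.2 h1 h2) (by
      rintro _ ⟨D, hD, rfl⟩ D' hD'
      exact hwrall D.1 D.2 hD D' hD')
  have h1 : Module.finrank k (LinearMap.ker Φ) ≤ 2 := by
    have := hker.2
    rwa [Submodule.finrank_map_subtype_eq] at this
  have h2 : Module.finrank k (LinearMap.range Φ) ≤ d := by
    rw [← hfr]
    exact Submodule.finrank_mono hrange
  have h3 := LinearMap.finrank_range_add_finrank_ker Φ
  omega

end Pool.Agent.Q35.DP
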