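import Pool.Agent.Q35.DP.Plan

/-!
JOB GENPT of the project DP: generic point of a component.
-/

set_option autoImplicit false
set_option linter.unusedSectionVars false

namespace Pool.Agent.Q35.DP

open MvPolynomial FF Pool.Agent.W603.LV Pool.Agent.TH145.GH Pool.Agent.Y166.DP

theorem genpt (hRK : StmRK) (hEqn : StmEqn) (hGen : StmGen) (hDual : StmDual) : S_GENPT := by
  classical
  intro K _ _ _ lam x y hE htr d M hM
  obtain ⟨S, hS⟩ := hRK ℂ lam d d
  obtain ⟨S', hS'⟩ := hRK ℂ lam d (d + 1)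
  obtain ⟨T, hT⟩ := hEqn ℂ lam d
  have hE0 : Ell ℂ K (algebraMap ℂ ℂ lam) x y := hE
  obtain ⟨hMsub, hirr, -⟩ := hM
  have hprime : (van M).IsPrime := hirr
  have hmem : ∀ G : MvPolynomial (Idx d) ℂ, G ∈ van M ↔ ∀ c ∈ M, eval c G = 0 :=
    fun G => Iff.rfl
  -- a point of `M`
  have hne : M.Nonempty := by
    by_contra h0
    rw [Set.not_nonempty_iff_eq_empty] at h0
    apply hprime.ne_top
    rw [Ideal.eq_top_iff_one, hmem]
    intro c hc
    rw [h0] at hc
    exact absurd hc (Set.notMem_empty c)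
  obtain ⟨c₀, hc₀⟩ := hne
  obtain ⟨hg, heq, hht⟩ := hMsub hc₀
  have hgv : ∀ c : Idx d → ℂ,
      (fun i => fsum x y fun j => (fun p => c (Sum.inl p)) (i, j)) = gv x y c :=
    fun c => rfl
  have hcne : (fun p => c₀ (Sum.inl p) : Fin 3 × Fin (d + 1) → ℂ) ≠ 0 := by
    intro h0
    apply hg
    funext i
    unfold gv fsum
    simp only [Pi.zero_apply]
    refine Finset.sum_eq_zero fun j _ => ?_
    have := congrFun h0 (i, j)
    simp only [Pi.zero_apply] at this
    rw [this, map_zero, zero_mul]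
  obtain ⟨p, hp⟩ := Function.ne_iff.1 hcne
  simp only [Pi.zero_apply] at hp
  obtain ⟨F, hF, hF0⟩ := (hS ℂ K x y hE0 (fun p => c₀ (Sum.inl p)) hcne).2 (by
    rw [hgv, hht])
  have hev : ∀ {σ : Type} (c : σ → ℂ) (G : MvPolynomial σ ℂ), aeval c G = eval c G := by
    intro σ c G
    rw [aeval_def, eval]
    rfl
  have hren : ∀ (c : Idx d → ℂ) (G : MvPolynomial (Fin 3 × Fin (d + 1)) ℂ),
      aeval (fun p => c (Sum.inl p)) G = eval c (rename Sum.inl G) := by
    intro c G
    rw [← hev, aeval_rename]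
    rfl
  have hh : (rename Sum.inl F : MvPolynomial (Idx d) ℂ) * X (Sum.inl p) ∉ van M := by
    intro h0
    rcases hprime.mem_or_mem h0 with h1 | h1
    · apply hF0
      rw [hren]
      exact (hmem _).1 h1 c₀ hc₀
    · apply hp
      have := (hmem _).1 h1 c₀ hc₀
      rwa [eval_X] at this
  obtain ⟨ξ, hξI, hξh, j, hj⟩ := hGen (Idx d) (van M) hprime _ hh lam htr
  rw [map_mul, eval_X] at hξh
  have hξp : ξ (Sum.inl p) ≠ 0 := right_ne_zero_of_mul hξh
  have hξF := left_ne_zero_of_mul hξh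
  have hξne : (fun p => ξ (Sum.inl p) : Fin 3 × Fin (d + 1) → ℂ) ≠ 0 := by
    intro h0
    exact hξp (congrFun h0 p)
  have h5 : ((d : ℕ) : ℤ) ≤ ht ℂ (gv x y ξ) := by
    have := (hS ℂ K x y hE0 (fun p => ξ (Sum.inl p)) hξne).1 ⟨F, hF, by
      rw [hren]
      exact hξF⟩
    rwa [hgv] at this
  have h6 : ¬ (((d + 1 : ℕ) : ℤ) ≤ ht ℂ (gv x y ξ)) := by
    intro h7
    obtain ⟨G, hG, hG0⟩ := (hS' ℂ K x y hE0 (fun p => ξ (Sum.inl p)) hξne).2 (by
      rw [hgv]; exact h7)
    apply hG0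
    rw [hren]
    apply hξI
    rw [hmem]
    intro c hc
    obtain ⟨hcg, -, hcht⟩ := hMsub hc
    rw [← hren]
    by_contra hne
    have hcne' : (fun p => c (Sum.inl p) : Fin 3 × Fin (d + 1) → ℂ) ≠ 0 := by
      intro h0
      apply hcg
      funext i
      unfold gv fsum
      simp only [Pi.zero_apply]
      refine Finset.sum_eq_zero fun j _ => ?_
      have := congrFun h0 (i, j)
      simp only [Pi.zero_apply] at this
      rw [this, map_zero, zero_mul]
    have h8 := (hS' ℂ K x y hE0 (fun p => c (Sum.inl p)) hcne').1 ⟨G, hG, hne⟩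
    rw [hgv, hcht] at h8
    push_cast at h8
    omega
  have h7 : ht ℂ (gv x y ξ) = ((d : ℕ) : ℤ) := by
    push_cast at h5 h6 ⊢
    omega
  have hcone : ξ ∈ cone x y d := by
    refine ⟨?_, ?_, h7⟩
    · intro h0
      rcases Nat.eq_zero_or_pos d with hd | hd
      · subst hd
        have h8 := congrFun h0 p.1
        unfold gv fsum at h8
        rw [Fin.sum_univ_one] at h8
        simp only [Pi.zero_apply, fn, Fin.isValue, Fin.val_zero, if_true, mul_one] at h8
        have h9 : p = (p.1, (0 : Fin (0 + 1))) := by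
          ext
          · rfl
          · simp
        apply hξp
        rw [h9]
        exact (map_eq_zero (algebraMap ℂ K)).1 h8
      · rw [h0] at h7
        have h8 : ht ℂ (0 : Fin 3 → K) = 0 := by
          unfold ht
          simp [mo_zero]
        rw [h8] at h7
        omega
    · refine (hT ℂ K x y hE0 ξ).2 fun G hG => ?_
      rw [hev]
      apply hξI
      rw [hmem]
      intro c hc
      rw [← hev]
      exact (hT ℂ K x y hE0 c).1 (hMsub hc).2.1 G hG
  refine ⟨ξ, hcone, ?_⟩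
  -- the derivations
  set z : Fin (Cardinal.toNat (Algebra.trdeg ℂ (MvPolynomial (Idx d) ℂ ⧸ van M)) + 1) → ℂ :=
    Fin.cons lam (fun i => ξ (j i)) with hz
  obtain ⟨D, hD⟩ := hDual ℚ ℂ _ z hj
  obtain ⟨D', hD'⟩ : ∃ D' : Fin (Cardinal.toNat (Algebra.trdeg ℂ
      (MvPolynomial (Idx d) ℂ ⧸ van M)) + 1) → Derivation ℤ ℂ ℂ, ∀ i a, D' i a = D i a :=
    ⟨fun i => (D i).restrictScalars ℤ, fun i a => rfl⟩
  have hlin : ∀ (a : Fin (Cardinal.toNat (Algebra.trdeg ℂ
      (MvPolynomial (Idx d) ℂ ⧸ van M)) + 1) → ℂ) (l), (∑ i, a i • D' i) (z l) = a l := by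
    intro a l
    have e1 : (∑ i, a i • D' i) (z l) = ∑ i, (a i • D' i) (z l) := by
      rw [← Derivation.coeFnAddMonoidHom_apply, map_sum, Finset.sum_apply]
      rfl
    rw [e1]
    simp only [Derivation.smul_apply, hD', hD, smul_eq_mul, mul_ite, mul_one, mul_zero]
    rw [Finset.sum_ite_eq' Finset.univ l a, if_pos (Finset.mem_univ l)]
  have hind : LinearIndependent ℂ D' := by
    rw [Fintype.linearIndependent_iff]
    intro a ha i
    rw [← hlin a i, ha]
    rfl
  refine ⟨Submodule.span ℂ (Set.range D'), ?_, ?_, ?_⟩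
  · exact FiniteDimensional.span_of_finite ℂ (Set.finite_range D')
  · rw [finrank_span_eq_card hind, Fintype.card_fin]
    rfl
  · intro E hEm hE1 hE2
    obtain ⟨a, rfl⟩ := (Submodule.mem_span_range_iff_exists_fun ℂ).1 hEm
    have : a = 0 := by
      funext l
      rw [← hlin a l]
      refine Fin.cases ?_ (fun l => ?_) l
      · rw [hz, Fin.cons_zero]
        exact hE1
      · rw [hz, Fin.cons_succ]
        exact hE2 _
    rw [this]
    simp

end Pool.Agent.Q35.DP
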