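import Pool.Agent.Q35.DP.Plan

/-!
JOB KERB of the project DP: the kernel has dimension at most two.
-/

set_option autoImplicit false
set_option linter.unusedSectionVars false

namespace Pool.Agent.Q35.DP

open MvPolynomial FF Pool.Agent.W603.LV Pool.Agent.TH145.GH Pool.Agent.Y166.DP

/-- The height of a constant vector is zero. -/
theorem ht_const {k K : Type} [Field k] [Field K] [Algebra k K] {ι : Type} [Finite ι]
    (c : ι → k) : ht k (fun i => algebraMap k K (c i)) = 0 := by
  have h1 : ∀ P : Place k K, mo P (fun i => algebraMap k K (c i)) = 0 := by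
    intro P
    by_cases h0 : (fun i => algebraMap k K (c i)) = 0
    · rw [h0, mo_zero]
    · obtain ⟨i, hi, e⟩ := exists_mo P h0
      rw [← e]
      apply P.ord_const
      intro h
      apply hi
      rw [h, map_zero]
  unfold ht
  simp [h1]

/-- A nonconstant vector and its derivative are linearly independent. -/
theorem indep_der {k K : Type} [Field k] [Field K] [Algebra k K] [CharZero k] [IsAlgClosed k]
    [IsFF k K] {ι : Type} [Finite ι] {g : ι → K} (hg : ht k g ≠ 0) {δ : Derivation k K K}
    (hδ : δ ≠ 0) {A B : K} (h : ∀ i, A * g i + B * δ (g i) = 0) : A = 0 ∧ B = 0 := by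
  have hg0 : g ≠ 0 := by
    intro h0
    apply hg
    rw [h0]
    unfold ht
    simp [mo_zero]
  obtain ⟨j, hj⟩ := Function.ne_iff.1 hg0
  have hj' : g j ≠ 0 := hj
  have hB : B = 0 := by
    by_contra hB
    apply hg
    have h1 : ∀ i, δ (g i) = -(A / B) * g i := by
      intro i
      have h2 := h i
      field_simp
      linear_combination h2
    have h2 : ∀ i, ∃ c : k, g i / g j = algebraMap k K c := by
      intro i
      apply const_of_der hδ
      rw [div_eq_mul_inv, δ.leibniz, δ.leibniz_inv, h1 i, h1 j]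
      simp only [smul_eq_mul]
      field_simp
      ring
    choose c hc using h2
    have h3 : g = fun i => g j * algebraMap k K (c i) := by
      funext i
      rw [← hc i]
      field_simp
    have h4 : (fun i => algebraMap k K (c i)) ≠ 0 := by
      intro h0
      apply hg0
      rw [h3]
      funext i
      have := congrFun h0 i
      simp only [Pi.zero_apply] at this ⊢
      rw [this, mul_zero]
    rw [h3, ht_smul (k := k) h4 hj', ht_const]
  refine ⟨?_, hB⟩
  have h1 := h j
  rw [hB, zero_mul, add_zero] at h1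
  exact (mul_eq_zero.1 h1).resolve_right hj'

theorem kerb (hExt : StmExt) (hInf : StmInf) (hBasis : StmBasis) (_hDel : StmDel)
    (hA : S_KERA) : StmKer := by
  classical
  intro k K _ _ _ _ _ _ lam x y hE d c hd hht hgen δ hδx 𝒟 hinj hwr
  obtain ⟨o, ho1, ho2, ho3⟩ := hInf k K lam x y hE
  have hox : o.ord x < 0 := by omega
  have hCK : CharZero K := charZero_of_injective_algebraMap (algebraMap k K).injective
  obtain ⟨g, hg⟩ : ∃ g : Fin 3 → K, g = fun i => fsum x y fun j => c (i, j) := ⟨_, rfl⟩
  have hgi : ∀ i, (fsum x y fun j => c (i, j)) = g i := fun i => by rw [hg]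
  have hδ0 : δ ≠ 0 := by
    intro h0
    rw [h0] at hδx
    exact mul_ne_zero two_ne_zero (Ell.y0 hE) hδx.symm
  have hhtg : ht k g = d := by rw [hg]; exact hht
  have hht0 : ht k g ≠ 0 := by
    rw [hhtg]
    have : d ≠ 0 := by omega
    exact_mod_cast this
  -- the lifts
  have hlift : ∀ D : Derivation ℤ k k, ∃ D' : Derivation ℤ K K, Lifts D D' ∧ D' x = 0 :=
    (hExt k K x hE.tr).1
  choose L hL hLx using hlift
  have huniq : ∀ D₁ D₂ : Derivation ℤ K K, (∀ c : k, D₁ (algebraMap k K c) = D₂ (algebraMap k K c)) →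
      D₁ x = D₂ x → D₁ = D₂ := (hExt k K x hE.tr).2
  have hLadd : ∀ D E : Derivation ℤ k k, L (D + E) = L D + L E := by
    intro D E
    refine huniq _ _ (fun c => ?_) ?_
    · rw [hL, Derivation.add_apply, Derivation.add_apply, hL, hL, map_add]
    · rw [hLx, Derivation.add_apply, hLx, hLx, add_zero]
  have hLsmul : ∀ (a : k) (D : Derivation ℤ k k), L (a • D) = algebraMap k K a • L D := by
    intro a D
    refine huniq _ _ (fun c => ?_) ?_
    · rw [hL, Derivation.smul_apply, Derivation.smul_apply, hL, smul_eq_mul, smul_eq_mul, map_mul]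
    · rw [hLx, Derivation.smul_apply, hLx, smul_zero]
  have hkera : ∀ D ∈ 𝒟, D lam = 0 ∧ ∃ (A : K) (b : k), (∀ i, L D (g i) =
      A * g i + algebraMap k K b * δ (g i)) ∧ (b = 0 → ∃ a : k, A = algebraMap k K a) := by
    intro D hD
    have := hA k K lam x y hE d c hd hht hgen δ hδx D (L D) (hL D) (hLx D)
      (hwr D hD (L D) (hL D))
    simpa only [hgi] using this
  let Ψ : 𝒟 →ₗ[k] (Fin 3 → K) :=
    { toFun := fun D i => L D.1 (g i)
      map_add' := fun D E => by
        funext i
        change L (D.1 + E.1) (g i) = L D.1 (g i) + L E.1 (g i)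
        rw [hLadd, Derivation.add_apply]
      map_smul' := fun a D => by
        funext i
        change L (a • D.1) (g i) = a • L D.1 (g i)
        rw [hLsmul, Derivation.smul_apply, smul_eq_mul, Algebra.smul_def] }
  have hΨ : ∀ (D : 𝒟) i, Ψ D i = L D.1 (g i) := fun D i => rfl
  have hΨinj : Function.Injective Ψ := by
    rw [← LinearMap.ker_eq_bot, LinearMap.ker_eq_bot']
    intro D hD
    have h1 : ∀ i, L D.1 (g i) = 0 := fun i => by rw [← hΨ, hD]; rfl
    have h2 := (hkera D.1 D.2).1
    have h3 : D.1 = 0 := by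
      refine hinj D.1 D.2 h2 ?_
      rintro ⟨i, j⟩
      have h4 := h1 i
      rw [hg] at h4
      simp only at h4
      rw [lift_fsum (hL D.1) (hLx D.1) (lift_y hE (hL D.1) h2 (hLx D.1))] at h4
      exact congrFun ((hBasis k K lam x y hE o hox).2.1 _ _ h4) j
    exact Subtype.ext h3
  -- the range
  have hrange : ∃ v : Fin 3 → K, LinearMap.range Ψ ≤ Submodule.span k {v, g} := by
    by_cases hb : ∃ D₁ ∈ 𝒟, ∃ (A₁ : K) (b₁ : k), b₁ ≠ 0 ∧ ∀ i, L D₁ (g i) =
        A₁ * g i + algebraMap k K b₁ * δ (g i)
    · obtain ⟨D₁, hD₁, A₁, b₁, hb₁, h1⟩ := hb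
      refine ⟨Ψ ⟨D₁, hD₁⟩, ?_⟩
      rintro _ ⟨⟨D, hD⟩, rfl⟩
      obtain ⟨-, A, b, h2, -⟩ := hkera D hD
      have hD' : D + (-(b / b₁)) • D₁ ∈ 𝒟 := 𝒟.add_mem hD (𝒟.smul_mem _ hD₁)
      obtain ⟨-, A', b', h3, h4⟩ := hkera _ hD'
      have h5 := indep_der (k := k) (g := g) hht0 hδ0 (A := A' - (A - algebraMap k K (b / b₁) * A₁))
        (B := algebraMap k K b') (by
          intro i
          have e := h3 i
          rw [hLadd, hLsmul, Derivation.add_apply, Derivation.smul_apply, smul_eq_mul, h1, h2]
            at e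
          have e2 : algebraMap k K b = algebraMap k K (b / b₁) * algebraMap k K b₁ := by
            rw [← map_mul, div_mul_cancel₀ _ hb₁]
          rw [e2, map_neg] at e
          linear_combination -e)
      have hb' : b' = 0 := (map_eq_zero _).1 h5.2
      obtain ⟨a, ha⟩ := h4 hb'
      rw [Submodule.mem_span_pair]
      refine ⟨b / b₁, a, ?_⟩
      funext i
      simp only [Pi.add_apply, Pi.smul_apply, hΨ]
      have e := h3 i
      rw [hLadd, hLsmul, Derivation.add_apply, Derivation.smul_apply, smul_eq_mul, hb', map_zero,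
        zero_mul, add_zero, ha, map_neg] at e
      rw [Algebra.smul_def, Algebra.smul_def]
      linear_combination -e
    · refine ⟨0, ?_⟩
      rintro _ ⟨⟨D, hD⟩, rfl⟩
      obtain ⟨-, A, b, h2, h3⟩ := hkera D hD
      have hb0 : b = 0 := by
        by_contra h0
        exact hb ⟨D, hD, A, b, h0, h2⟩
      obtain ⟨a, ha⟩ := h3 hb0
      rw [Submodule.mem_span_pair]
      refine ⟨0, a, ?_⟩
      funext i
      simp only [Pi.add_apply, Pi.smul_apply, hΨ, smul_zero, Pi.zero_apply, zero_add]
      rw [h2 i, hb0, map_zero, zero_mul, add_zero, ha, Algebra.smul_def]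
  obtain ⟨v, hv⟩ := hrange
  have hfs : FiniteDimensional k (Submodule.span k ({v, g} : Set (Fin 3 → K))) :=
    FiniteDimensional.span_of_finite k (Set.toFinite _)
  have hfr : FiniteDimensional k (LinearMap.range Ψ) := Submodule.finiteDimensional_of_le hv
  have he := LinearEquiv.ofInjective Ψ hΨinj
  refine ⟨LinearEquiv.finiteDimensional he.symm, ?_⟩
  rw [LinearEquiv.finrank_eq he]
  refine (Submodule.finrank_mono hv).trans ?_
  have h1 := finrank_span_finset_le_card (R := k) ({v, g} : Finset (Fin 3 → K))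
  rw [Finset.coe_pair] at h1
  exact h1.trans Finset.card_le_two

end Pool.Agent.Q35.DP
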